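import Pool.Agent.Lib.TG_h55.LDegModel
import Pool.Agent.Lib.TG_h81.ProjP

/-!
# TANK G, block C, J10: `LDeg` over projective space
-/

set_option autoImplicit false

namespace Pool.Agent.TG55

open Pool.Agent.TG (ncl up upm stab LDeg Ov ZDim IsMin ch RV)
open Pool.Agent.TG82
open Pool.Agent.LU2 (locV)

universe u

section Charts

variable {k F : Type u} [Field k] [Field F] [Algebra k F]

/-- The chart of a span. -/
theorem ch_span {ι : Type*} (w : ι → F) (c : F) :
    ch (Submodule.span k (Set.range w)) c = Algebra.adjoin k (Set.range fun i => w i / c) := by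
  refine le_antisymm (TG.ch_le_iff.2 fun g hg => ?_) (Algebra.adjoin_le ?_)
  · induction hg using Submodule.span_induction with
    | mem x hx =>
      obtain ⟨i, rfl⟩ := hx
      exact Algebra.subset_adjoin ⟨i, rfl⟩
    | zero => rw [zero_div]; exact Subalgebra.zero_mem _
    | add x y _ _ hx hy => rw [add_div]; exact Subalgebra.add_mem _ hx hy
    | smul t x _ hx => rw [smul_div_assoc]; exact Subalgebra.smul_mem _ hx t
  · rintro _ ⟨i, rfl⟩
    exact TG.div_mem_ch (Submodule.subset_span ⟨i, rfl⟩)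

/-- `F = k(y)` with `y` algebraically independent: `k[y]` is integrally closed in `F`. -/
theorem mem_adjoin_of_isIntegral {ι : Type*} (y : ι → F) (hy : AlgebraicIndependent k y)
    (hgen : IntermediateField.adjoin k (Set.range y) = ⊤) (b : F)
    (hb : IsIntegral (Algebra.adjoin k (Set.range y)) b) : b ∈ Algebra.adjoin k (Set.range y) := by
  have hic : IsIntegrallyClosed (Algebra.adjoin k (Set.range y)) :=
    IsIntegrallyClosed.of_equiv hy.aevalEquiv.toRingEquiv
  have hfr : IsFractionRing (Algebra.adjoin k (Set.range y)) F := by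
    refine IsFractionRing.of_field (Algebra.adjoin k (Set.range y)) F fun z => ?_
    have hz : z ∈ IntermediateField.adjoin k (Set.range y) := by rw [hgen]; trivial
    obtain ⟨a, ha, c, hc, h⟩ := (IntermediateField.mem_adjoin_iff_div).1 hz
    exact ⟨⟨a, ha⟩, ⟨c, hc⟩, h⟩
  obtain ⟨a, ha⟩ := (IsIntegrallyClosed.isIntegral_iff (K := F)).1 hb
  rw [← ha]
  exact a.2

theorem isAlgebraic_adjoin {S : Set F} (hgen : IntermediateField.adjoin k S = ⊤) (b : F) :
    IsAlgebraic (Algebra.adjoin k S) b := by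
  have hz : b ∈ IntermediateField.adjoin k S := by rw [hgen]; trivial
  obtain ⟨a, ha, c, hc, h⟩ := (IntermediateField.mem_adjoin_iff_div).1 hz
  rw [h, div_eq_mul_inv]
  have h1 : IsAlgebraic (Algebra.adjoin k S) a :=
    isAlgebraic_algebraMap (⟨a, ha⟩ : Algebra.adjoin k S)
  have h2 : IsAlgebraic (Algebra.adjoin k S) c :=
    isAlgebraic_algebraMap (⟨c, hc⟩ : Algebra.adjoin k S)
  exact h1.mul h2.inv

variable {r : ℕ}

/-- The field generated by the ratios does not depend on the denominator. -/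
theorem adjoin_ratio_eq_top (w : Fin (r + 1) → F) (hw : ∀ i, w i ≠ 0)
    (hgen : IntermediateField.adjoin k (Set.range fun i => w i / w 0) = ⊤) (j : Fin (r + 1)) :
    IntermediateField.adjoin k (Set.range fun i : Fin r => w (j.succAbove i) / w j) = ⊤ := by
  rw [eq_top_iff, ← hgen, IntermediateField.adjoin_le_iff]
  have hall : ∀ i, w i / w j ∈
      IntermediateField.adjoin k (Set.range fun i : Fin r => w (j.succAbove i) / w j) := by
    intro i
    by_cases hij : i = j
    · rw [hij, div_self (hw j)]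
      exact one_mem _
    · obtain ⟨i', rfl⟩ := Fin.exists_succAbove_eq hij
      exact IntermediateField.subset_adjoin k _ ⟨i', rfl⟩
  rintro _ ⟨i, rfl⟩
  have h1 : w i / w 0 = (w i / w j) / (w 0 / w j) := by
    rw [div_div_div_cancel_right₀ (hw j)]
  change w i / w 0 ∈ _
  rw [h1]
  exact div_mem (hall i) (hall 0)

theorem adjoin_ratio_eq (w : Fin (r + 1) → F) (hw : ∀ i, w i ≠ 0) (j : Fin (r + 1)) :
    Algebra.adjoin k (Set.range fun i => w i / w j) =
      Algebra.adjoin k (Set.range fun i : Fin r => w (j.succAbove i) / w j) := by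
  refine le_antisymm (Algebra.adjoin_le ?_) (Algebra.adjoin_mono ?_)
  · rintro _ ⟨i, rfl⟩
    by_cases hij : i = j
    · change w i / w j ∈ _
      rw [hij, div_self (hw j)]
      exact one_mem _
    · obtain ⟨i', rfl⟩ := Fin.exists_succAbove_eq hij
      exact Algebra.subset_adjoin ⟨i', rfl⟩
  · rintro _ ⟨i, rfl⟩
    exact ⟨_, rfl⟩

/-- The affine coordinates of any chart are algebraically independent. -/
theorem algInd_ratio (w : Fin (r + 1) → F) (hw : ∀ i, w i ≠ 0)
    (hgen : IntermediateField.adjoin k (Set.range fun i => w i / w 0) = ⊤)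
    (htr : Algebra.trdeg k F = r) (j : Fin (r + 1)) :
    AlgebraicIndependent k (fun i : Fin r => w (j.succAbove i) / w j) := by
  have h1 := adjoin_ratio_eq_top w hw hgen j
  have h2 : Algebra.IsAlgebraic
      (Algebra.adjoin k (Set.range fun i : Fin r => w (j.succAbove i) / w j)) F :=
    ⟨isAlgebraic_adjoin h1⟩
  refine (Algebra.IsAlgebraic.isTranscendenceBasis_of_lift_le_trdeg_of_finite k _ ?_).1
  rw [htr]
  simp

variable [IsAlgClosed k]

/-- **`LDeg` over projective space, in general coordinates.** -/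
theorem lDeg_proj (w : Fin (r + 1) → F) (hw : ∀ i, w i ≠ 0)
    (hgen : IntermediateField.adjoin k (Set.range fun i => w i / w 0) = ⊤)
    (htr : Algebra.trdeg k F = r)
    (M : Type u) [Field M] [Algebra k M] [Algebra F M] [IsScalarTower k F M]
    [FiniteDimensional F M] (hM : (⊤ : IntermediateField k M).FG) {d : ℕ}
    (h : ∀ j, ∀ V : ValuationSubring M, ZDim k V → (∀ i, algebraMap F M (w i / w j) ∈ V) →
      ∀ x : ncl (up M (Algebra.adjoin k (Set.range fun i => w i / w j))) →ₐ[k] k,
        (∀ a : ncl (up M (Algebra.adjoin k (Set.range fun i => w i / w j))),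
          V.valuation ((a : M) - algebraMap k M (x a)) < 1) →
        rho (Algebra.adjoin k (Set.range fun i => w i / w j)) x ≤ d)
    (v₀ : ValuationSubring F) (hv : ZDim k v₀) :
    LDeg M v₀ (RV v₀ (Submodule.span k (Set.range w))) d := by
  classical
  have hkey : ∀ j, ∀ A : Subalgebra k F, ch (Submodule.span k (Set.range w)) (w j) = A →
      ∀ V : ValuationSubring M,
      (∀ x : ncl (up M A) →ₐ[k] k,
        (∀ a : ncl (up M A), V.valuation ((a : M) - algebraMap k M (x a)) < 1) → rho A x ≤ d) →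
      ∀ x : ncl (up M (ch (Submodule.span k (Set.range w)) (w j))) →ₐ[k] k,
        (∀ a : ncl (up M (ch (Submodule.span k (Set.range w)) (w j))),
          V.valuation ((a : M) - algebraMap k M (x a)) < 1) →
        rho (ch (Submodule.span k (Set.range w)) (w j)) x ≤ d := by
    rintro j A rfl V h
    exact h
  refine lDeg_of_zdim (Submodule.span k (Set.range w)) (Finset.univ.image w) (by simp) ?_
    ⟨w 0, Finset.mem_image_of_mem _ (Finset.mem_univ _)⟩ ?_ ?_ M hM ?_ v₀ hv
  · intro c hc
    obtain ⟨j, -, rfl⟩ := Finset.mem_image.1 hc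
    exact hw j
  · intro c hc
    obtain ⟨j, -, rfl⟩ := Finset.mem_image.1 hc
    rw [ch_span, adjoin_ratio_eq w hw j]
    exact mem_adjoin_of_isIntegral _ (algInd_ratio w hw hgen htr j)
      (adjoin_ratio_eq_top w hw hgen j)
  · intro c hc
    obtain ⟨j, -, rfl⟩ := Finset.mem_image.1 hc
    rw [ch_span, adjoin_ratio_eq w hw j]
    exact isAlgebraic_adjoin (adjoin_ratio_eq_top w hw hgen j)
  · intro c hc V hV hmin
    obtain ⟨j, -, rfl⟩ := Finset.mem_image.1 hc
    refine hkey j _ (ch_span w (w j)) V (h j V hV fun i => ?_)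
    have h1 := (TG.isMin_upm V).1 hmin
    exact h1.div _ (Submodule.subset_span ⟨i, rfl⟩)

end Charts

/-! ## The models `PB` and `PP` -/

section Models

variable {k K : Type u} [Field k] [Field K] [Algebra k K]

theorem spn_eq (E : IntermediateField k K) {ι : Type*} (w : ι → E) :
    TG.spn E (Set.range fun i => (w i : K)) = Submodule.span k (Set.range w) := by
  have h1 : (Set.range fun i => (w i : K)) = E.val.toLinearMap '' (Set.range w) := by
    rw [← Set.range_comp]
    rfl
  rw [TG.spn, h1, ← Submodule.map_span,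
    Submodule.comap_map_eq_of_injective (f := E.val.toLinearMap) (fun a b h => Subtype.ext h)]

variable {m : ℕ}

/-- Homogeneous coordinates of `P^m` in `L₀`. -/
def wB (k : Type u) {K : Type u} [Field k] [Field K] [Algebra k K] {m : ℕ} (b : Fin m → K) :
    Fin (m + 1) → TG.LB k b :=
  Fin.cons 1 fun i => ⟨b i, IntermediateField.subset_adjoin k _ ⟨i, rfl⟩⟩

/-- Homogeneous coordinates of `P^(m+1)` in `K₀`. -/
def wP (k : Type u) {K : Type u} [Field k] [Field K] [Algebra k K] {m : ℕ} (b : Fin m → K)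
    (z : K) : Fin (m + 1 + 1) → TG.KB k b z :=
  Fin.snoc (Fin.cons 1 fun i => ⟨b i, IntermediateField.subset_adjoin k _ (Or.inr ⟨i, rfl⟩)⟩)
    ⟨z, IntermediateField.subset_adjoin k _ (Or.inl rfl)⟩

/-- The same coordinates in `K`. -/
def hB {K : Type u} [Field K] {m : ℕ} (b : Fin m → K) : Fin (m + 1) → K := Fin.cons 1 b

def hP {K : Type u} [Field K] {m : ℕ} (b : Fin m → K) (z : K) : Fin (m + 1 + 1) → K :=
  Fin.snoc (hB b) z

theorem wB_coe (b : Fin m → K) (i : Fin (m + 1)) : (wB k b i : K) = hB b i := by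
  refine Fin.cases ?_ (fun i => ?_) i
  · rfl
  · rfl

theorem wP_coe (b : Fin m → K) (z : K) (i : Fin (m + 1 + 1)) : (wP k b z i : K) = hP b z i := by
  refine Fin.lastCases ?_ (fun i => ?_) i
  · simp [wP, hP]
  · simp only [wP, hP, Fin.snoc_castSucc]
    refine Fin.cases ?_ (fun i => ?_) i
    · rfl
    · rfl

theorem range_hB (b : Fin m → K) : Set.range (hB b) = insert 1 (Set.range b) :=
  Fin.range_cons 1 b

theorem range_hP (b : Fin m → K) (z : K) :
    Set.range (hP b z) = insert 1 (insert z (Set.range b)) := by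
  rw [hP, Fin.range_snoc, range_hB, Set.insert_comm]

theorem PB_eq (b : Fin m → K) : TG.PB k b = Submodule.span k (Set.range (wB k b)) := by
  rw [← spn_eq, TG.PB]
  congr 1
  rw [← range_hB]
  congr 1
  funext i
  exact (wB_coe b i).symm

theorem PP_eq (b : Fin m → K) (z : K) :
    TG.PP k b z = Submodule.span k (Set.range (wP k b z)) := by
  rw [← spn_eq, TG.PP]
  congr 1
  rw [← range_hP]
  congr 1
  funext i
  exact (wP_coe b z i).symm

/-- An intermediate field generated by elements of itself. -/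
theorem adjoin_eq_top_of (E : IntermediateField k K) (S : Set E)
    (h : E ≤ IntermediateField.adjoin k (E.val '' S)) : IntermediateField.adjoin k S = ⊤ := by
  have h1 : (IntermediateField.adjoin k S).map E.val = IntermediateField.adjoin k (E.val '' S) :=
    IntermediateField.adjoin_map k S E.val
  rw [eq_top_iff]
  intro x _
  have h2 : (x : K) ∈ (IntermediateField.adjoin k S).map E.val := by
    rw [h1]
    exact h x.2
  obtain ⟨y, hy, hyx⟩ := h2
  have h3 : y = x := Subtype.ext hyx
  exact h3 ▸ hy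

theorem hB_ne {b : Fin m → K} (hb : ∀ i, b i ≠ 0) (i : Fin (m + 1)) : hB b i ≠ 0 := by
  refine Fin.cases ?_ (fun i => ?_) i
  · exact one_ne_zero
  · exact hb i

theorem hP_ne {b : Fin m → K} {z : K} (hb : ∀ i, b i ≠ 0) (hz : z ≠ 0) (i : Fin (m + 1 + 1)) :
    hP b z i ≠ 0 := by
  refine Fin.lastCases ?_ (fun i => ?_) i
  · simpa [hP] using hz
  · simp only [hP, Fin.snoc_castSucc]
    exact hB_ne hb i

theorem wB_gen (b : Fin m → K) :
    IntermediateField.adjoin k (Set.range fun i => wB k b i / wB k b 0) = ⊤ := by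
  refine adjoin_eq_top_of _ _ (IntermediateField.adjoin_le_iff.2 ?_)
  rintro _ ⟨i, rfl⟩
  refine IntermediateField.subset_adjoin k _ ⟨wB k b i.succ / wB k b 0, ⟨i.succ, rfl⟩, ?_⟩
  change ((wB k b i.succ / wB k b 0 : TG.LB k b) : K) = b i
  have h1 : ((wB k b i.succ / wB k b 0 : TG.LB k b) : K) =
      (wB k b i.succ : K) / (wB k b 0 : K) := rfl
  rw [h1, wB_coe, wB_coe]
  simp [hB]

theorem hP_zero (b : Fin m → K) (z : K) : hP b z 0 = 1 := by
  have h1 : (0 : Fin (m + 1 + 1)) = Fin.castSucc 0 := rfl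
  rw [hP, h1, Fin.snoc_castSucc]
  rfl

theorem wP_gen (b : Fin m → K) (z : K) :
    IntermediateField.adjoin k (Set.range fun i => wP k b z i / wP k b z 0) = ⊤ := by
  refine adjoin_eq_top_of _ _ (IntermediateField.adjoin_le_iff.2 ?_)
  have hall : ∀ i, hP b z i ∈ IntermediateField.adjoin k
      ((TG.KB k b z).val '' (Set.range fun i => wP k b z i / wP k b z 0)) := by
    intro i
    refine IntermediateField.subset_adjoin k _ ⟨wP k b z i / wP k b z 0, ⟨i, rfl⟩, ?_⟩
    change ((wP k b z i / wP k b z 0 : TG.KB k b z) : K) = hP b z i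
    have h1 : ((wP k b z i / wP k b z 0 : TG.KB k b z) : K) =
        (wP k b z i : K) / (wP k b z 0 : K) := rfl
    rw [h1, wP_coe, wP_coe, hP_zero, div_one]
  intro y hy
  have h2 : y ∈ Set.range (hP b z) := by
    rw [range_hP]
    exact Set.mem_insert_of_mem _ hy
  obtain ⟨i, rfl⟩ := h2
  exact hall i

theorem wB_ne {b : Fin m → K} (hb : ∀ i, b i ≠ 0) (i : Fin (m + 1)) : wB k b i ≠ 0 := by
  intro h
  exact hB_ne hb i (by rw [← wB_coe (k := k), h]; rfl)

theorem wP_ne {b : Fin m → K} {z : K} (hb : ∀ i, b i ≠ 0) (hz : z ≠ 0) (i : Fin (m + 1 + 1)) :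
    wP k b z i ≠ 0 := by
  intro h
  exact hP_ne hb hz i (by rw [← wP_coe (k := k), h]; rfl)

theorem trdeg_LB {b : Fin m → K} (hb : AlgebraicIndependent k b) :
    Algebra.trdeg k (TG.LB k b) = m := by
  let y : Fin m → TG.LB k b := fun i => ⟨b i, IntermediateField.subset_adjoin k _ ⟨i, rfl⟩⟩
  have hy : AlgebraicIndependent k y :=
    AlgebraicIndependent.of_comp (TG.LB k b).val (by
      have h1 : (TG.LB k b).val ∘ y = b := rfl
      rw [h1]; exact hb)
  have hgen : IntermediateField.adjoin k (Set.range y) = ⊤ := by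
    refine adjoin_eq_top_of _ _ (IntermediateField.adjoin_le_iff.2 ?_)
    rintro _ ⟨i, rfl⟩
    exact IntermediateField.subset_adjoin k _ ⟨y i, ⟨i, rfl⟩, rfl⟩
  have halg : Algebra.IsAlgebraic (Algebra.adjoin k (Set.range y)) (TG.LB k b) :=
    ⟨isAlgebraic_adjoin hgen⟩
  have h1 := hy.isTranscendenceBasis_iff_isAlgebraic.2 halg
  have h2 := h1.lift_cardinalMk_eq_trdeg
  simpa using h2.symm

theorem trdeg_KB {b : Fin m → K} {z : K} (htr : Algebra.trdeg k K = ((m + 1 : ℕ) : Cardinal))
    [Algebra.IsAlgebraic (TG.KB k b z) K] :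
    Algebra.trdeg k (TG.KB k b z) = ((m + 1 : ℕ) : Cardinal) := by
  have h1 := trdeg_add_eq k (TG.KB k b z) (A := K)
  rw [trdeg_eq_zero_iff.2 (inferInstance : Algebra.IsAlgebraic (TG.KB k b z) K), add_zero,
    htr] at h1
  exact h1

/-- **J10a.**  `LDeg` for `K` over `P^(m+1)` from the local degrees at the centres of all
zero-dimensional valuation rings, in the charts `w j ≠ 0` of the homogeneous coordinates
`w = (1, b, z)`. -/
theorem lDeg_PP [IsAlgClosed k] {b : Fin m → K} {z : K} (hb : ∀ i, b i ≠ 0) (hz : z ≠ 0)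
    (htr : Algebra.trdeg k K = ((m + 1 : ℕ) : Cardinal)) [FiniteDimensional (TG.KB k b z) K]
    (hK : (⊤ : IntermediateField k K).FG) {d : ℕ}
    (h : ∀ j, ∀ V : ValuationSubring K, ZDim k V → (∀ i, hP b z i / hP b z j ∈ V) →
      ∀ x : ncl (up K (Algebra.adjoin k (Set.range fun i => wP k b z i / wP k b z j))) →ₐ[k] k,
        (∀ a : ncl (up K (Algebra.adjoin k (Set.range fun i => wP k b z i / wP k b z j))),
          V.valuation ((a : K) - algebraMap k K (x a)) < 1) →
        rho (Algebra.adjoin k (Set.range fun i => wP k b z i / wP k b z j)) x ≤ d)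
    (v₀ : ValuationSubring (TG.KB k b z)) (hv : ZDim k v₀) :
    LDeg K v₀ (RV v₀ (TG.PP k b z)) d := by
  rw [PP_eq]
  refine lDeg_proj (wP k b z) (wP_ne hb hz) (wP_gen b z) (trdeg_KB htr) K hK ?_ v₀ hv
  intro j V hV hi x hx
  refine h j V hV (fun i => ?_) x hx
  have h1 := hi i
  have h2 : algebraMap (TG.KB k b z) K (wP k b z i / wP k b z j) = hP b z i / hP b z j := by
    rw [map_div₀]
    change (wP k b z i : K) / (wP k b z j : K) = _
    rw [wP_coe, wP_coe]
  rw [h2] at h1
  exact h1

/-- **J10b, chart step.**  `LDeg` for a finite extension `M` of `L₀ = k(b)` over `P^m`. -/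
theorem lDeg_PB [IsAlgClosed k] {b : Fin m → K} (hbi : AlgebraicIndependent k b)
    (M : Type u) [Field M] [Algebra k M] [Algebra (TG.LB k b) M] [IsScalarTower k (TG.LB k b) M]
    [FiniteDimensional (TG.LB k b) M] (hM : (⊤ : IntermediateField k M).FG) {d : ℕ}
    (h : ∀ j, ∀ V : ValuationSubring M, ZDim k V →
      (∀ i, algebraMap (TG.LB k b) M (wB k b i / wB k b j) ∈ V) →
      ∀ x : ncl (up M (Algebra.adjoin k (Set.range fun i => wB k b i / wB k b j))) →ₐ[k] k,
        (∀ a : ncl (up M (Algebra.adjoin k (Set.range fun i => wB k b i / wB k b j))),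
          V.valuation ((a : M) - algebraMap k M (x a)) < 1) →
        rho (Algebra.adjoin k (Set.range fun i => wB k b i / wB k b j)) x ≤ d)
    (v₀ : ValuationSubring (TG.LB k b)) (hv : ZDim k v₀) :
    LDeg M v₀ (RV v₀ (TG.PB k b)) d := by
  rw [PB_eq]
  exact lDeg_proj (wB k b) (wB_ne fun i => hbi.ne_zero i) (wB_gen b) (trdeg_LB hbi) M hM h v₀ hv

end Models

end Pool.Agent.TG55
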