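import Pool.Agent.Lib.TG_h82.Rho

/-!
# TANK G, block C, J10: from the local degrees of points to `LDeg`

`A ⊆ F` integrally closed, `v₀` a valuation ring of `F` containing `A`, whose centre on `A` is a
`k`-point.  If the local degrees `rho A x` of all points `x` of the integral closure of `A` in `M`
over the centre of `v₀` are at most `d`, then `LDeg M v₀ A d`.
-/

set_option autoImplicit false

namespace Pool.Agent.TG55

open Pool.Agent.TG (ncl up stab LDeg Ov)
open Pool.Agent.TG82

universe u

section Point

variable {k F N : Type u} [Field k] [IsAlgClosed k] [Field F] [Field N] [Algebra k F]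
  [Algebra k N] [Algebra F N] [IsScalarTower k F N]

omit [IsAlgClosed k] [Field F] [Algebra k F] [Algebra F N] [IsScalarTower k F N] in
theorem val_alg {W : ValuationSubring N} (hk : Ov k W) {c : k}
    (h : W.valuation (algebraMap k N c) < 1) : c = 0 := by
  by_contra hc
  have h1 : W.valuation (algebraMap k N c⁻¹) ≤ 1 := (W.valuation_le_one_iff _).2 (hk c⁻¹)
  have h2 : W.valuation (algebraMap k N c) * W.valuation (algebraMap k N c⁻¹) = 1 := by
    rw [← map_mul, ← map_mul, mul_inv_cancel₀ hc, map_one, map_one]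
  have h3 : W.valuation (algebraMap k N c) * W.valuation (algebraMap k N c⁻¹) < 1 :=
    mul_lt_one_of_nonneg_of_lt_one_left zero_le h h1
  exact absurd h2 h3.ne

omit [IsAlgClosed k] [Field F] [Algebra k F] [Algebra F N] [IsScalarTower k F N] in
theorem val_uniq {W : ValuationSubring N} (hk : Ov k W) {a : N} {c c' : k}
    (h : W.valuation (a - algebraMap k N c) < 1) (h' : W.valuation (a - algebraMap k N c') < 1) :
    c = c' := by
  have h1 : W.valuation (algebraMap k N (c' - c)) < 1 := by
    have h2 : algebraMap k N (c' - c) = (a - algebraMap k N c) - (a - algebraMap k N c') := by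
      rw [map_sub]; ring
    rw [h2]
    exact Valuation.map_sub_lt _ h h'
  have h3 := val_alg hk h1
  exact (sub_eq_zero.1 h3).symm

/-- The elements of the integral closure have residues in `k`. -/
theorem exists_res (A : Subalgebra k F) (W : ValuationSubring N) (hk : Ov k W)
    (hres : ∀ a ∈ A, ∃ c : k, W.valuation (algebraMap F N a - algebraMap k N c) < 1)
    {a : N} (ha : a ∈ ncl (up N A)) : ∃ c : k, W.valuation (a - algebraMap k N c) < 1 := by
  have hAW : ∀ b ∈ up (k := k) N A, b ∈ W := by
    rintro _ ⟨b, hb, rfl⟩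
    obtain ⟨c, hc⟩ := hres b hb
    have h1 : algebraMap F N b - algebraMap k N c ∈ W := (W.valuation_le_one_iff _).1 hc.le
    have h2 := W.add_mem _ _ h1 (hk c)
    rw [sub_add_cancel] at h2
    exact h2
  have haW : a ∈ W := TG.ncl_mem hAW a ha
  obtain ⟨p, hp, hc, h0⟩ := TG.exists_poly_of_mem_ncl ha
  have hcc : ∀ i, ∃ c : k, W.valuation (p.coeff i - algebraMap k N c) < 1 := by
    intro i
    obtain ⟨b, hb, h1⟩ := hc i
    obtain ⟨c, h2⟩ := hres b hb
    refine ⟨c, ?_⟩
    rw [← h1]
    exact h2
  choose c hc' using hcc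
  -- the reduced polynomial
  let n := p.natDegree
  let q : Polynomial k := Polynomial.X ^ n + ∑ i ∈ Finset.range n, Polynomial.C (c i) *
    Polynomial.X ^ i
  have hq0 : q.Monic := by
    refine Polynomial.monic_X_pow_add ?_
    refine Polynomial.degree_sum_fin_lt (R := k) (fun i : Fin n => c i) |> fun h => ?_
    rw [Finset.sum_range]
    exact h
  have hqa : W.valuation (Polynomial.aeval a q) < 1 := by
    have h1 : Polynomial.aeval a q = Polynomial.eval a p - ∑ i ∈ Finset.range n,
        (p.coeff i - algebraMap k N (c i)) * a ^ i := by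
      have h2 : Polynomial.eval a p = a ^ n + ∑ i ∈ Finset.range n, p.coeff i * a ^ i := by
        rw [Polynomial.eval_eq_sum_range, Finset.sum_range_succ, add_comm]
        congr 1
        rw [hp.coeff_natDegree, one_mul]
      rw [h2]
      simp only [q, map_add, map_pow, Polynomial.aeval_X, map_sum, map_mul, Polynomial.aeval_C,
        sub_mul, Finset.sum_sub_distrib]
      ring
    rw [h1, h0, zero_sub, Valuation.map_neg]
    refine Valuation.map_sum_lt _ one_ne_zero fun i _ => ?_
    rw [map_mul, map_pow]
    refine lt_of_le_of_lt (mul_le_of_le_one_right' (pow_le_one₀ zero_le ?_)) (hc' i)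
    exact (W.valuation_le_one_iff _).2 haW
  have hsplit : q = (q.roots.map fun r => Polynomial.X - Polynomial.C r).prod := by
    have h1 := (IsAlgClosed.splits q).eq_prod_roots
    rw [hq0.leadingCoeff, map_one, one_mul] at h1
    exact h1
  by_contra hcon
  push Not at hcon
  have h5 : W.valuation (Polynomial.aeval a q) = 1 := by
    rw [hsplit, map_multiset_prod, Multiset.map_map, map_multiset_prod, Multiset.map_map]
    refine Multiset.prod_eq_one fun x hx => ?_
    obtain ⟨r, -, rfl⟩ := Multiset.mem_map.1 hx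
    change W.valuation (Polynomial.aeval a (Polynomial.X - Polynomial.C r)) = 1
    rw [map_sub, Polynomial.aeval_X, Polynomial.aeval_C]
    refine le_antisymm ?_ (hcon r)
    exact (W.valuation_le_one_iff _).2 (W.sub_mem haW (hk r))
  exact absurd h5 hqa.ne

/-- The point of the integral closure given by a valuation ring. -/
theorem exists_point (A : Subalgebra k F) (W : ValuationSubring N) (hk : Ov k W)
    (hres : ∀ a ∈ A, ∃ c : k, W.valuation (algebraMap F N a - algebraMap k N c) < 1) :
    ∃ Q : ncl (up N A) →ₐ[k] k, ∀ a : ncl (up N A),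
      W.valuation ((a : N) - algebraMap k N (Q a)) < 1 := by
  have h1 : ∀ a : ncl (up N A), ∃ c : k, W.valuation ((a : N) - algebraMap k N c) < 1 :=
    fun a => exists_res A W hk hres a.2
  have hAW : ∀ b ∈ up (k := k) N A, b ∈ W := by
    rintro _ ⟨b, hb, rfl⟩
    obtain ⟨c, hc⟩ := hres b hb
    have h1 : algebraMap F N b - algebraMap k N c ∈ W := (W.valuation_le_one_iff _).1 hc.le
    have h2 := W.add_mem _ _ h1 (hk c)
    rw [sub_add_cancel] at h2
    exact h2
  choose Q hQ using h1
  have hu : ∀ (a : ncl (up N A)) (c : k), W.valuation ((a : N) - algebraMap k N c) < 1 →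
      Q a = c := fun a c h => val_uniq hk (hQ a) h
  refine ⟨{ toFun := Q, map_one' := ?_, map_mul' := ?_, map_zero' := ?_, map_add' := ?_,
            commutes' := ?_ }, hQ⟩
  · refine hu _ _ ?_
    rw [map_one]
    change W.valuation ((1 : N) - 1) < 1
    rw [sub_self, map_zero]
    exact zero_lt_one
  · intro a b
    refine hu _ _ ?_
    have h2 : ((a * b : ncl (up N A)) : N) - algebraMap k N (Q a * Q b) =
        (a : N) * ((b : N) - algebraMap k N (Q b)) +
          algebraMap k N (Q b) * ((a : N) - algebraMap k N (Q a)) := by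
      rw [map_mul]
      change (a : N) * (b : N) - _ = _
      ring
    rw [h2]
    refine Valuation.map_add_lt _ ?_ ?_
    · rw [map_mul]
      exact lt_of_le_of_lt (mul_le_of_le_one_left'
        ((W.valuation_le_one_iff _).2 (TG.ncl_mem hAW _ a.2))) (hQ b)
    · rw [map_mul]
      exact lt_of_le_of_lt (mul_le_of_le_one_left'
        ((W.valuation_le_one_iff _).2 (hk _))) (hQ a)
  · refine hu _ _ ?_
    rw [map_zero]
    change W.valuation ((0 : N) - 0) < 1
    rw [sub_self, map_zero]
    exact zero_lt_one
  · intro a b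
    refine hu _ _ ?_
    have h2 : ((a + b : ncl (up N A)) : N) - algebraMap k N (Q a + Q b) =
        ((a : N) - algebraMap k N (Q a)) + ((b : N) - algebraMap k N (Q b)) := by
      rw [map_add]
      change (a : N) + (b : N) - _ = _
      ring
    rw [h2]
    exact Valuation.map_add_lt _ (hQ a) (hQ b)
  · intro c
    refine hu _ _ ?_
    change W.valuation (algebraMap k N c - algebraMap k N c) < 1
    rw [sub_self, map_zero]
    exact zero_lt_one

end Point

section LDeg

variable {k F : Type u} [Field k] [IsAlgClosed k] [Field F] [Algebra k F]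

/-- **From local degrees of points to `LDeg`.** -/
theorem lDeg_of_rho {A : Subalgebra k F} (hA : ∀ b : F, IsIntegral A b → b ∈ A)
    (v₀ : ValuationSubring F) (hk : Ov k v₀)
    (hres : ∀ a ∈ A, ∃ c : k, v₀.valuation (a - algebraMap k F c) < 1)
    (M : Type u) [Field M] [Algebra k M] [Algebra F M] [IsScalarTower k F M]
    [FiniteDimensional F M] {d : ℕ}
    (h : ∀ x : ncl (up M A) →ₐ[k] k,
      (∀ a : A, v₀.valuation ((a : F) - algebraMap k F (x (toC M A a))) < 1) → rho A x ≤ d) :
    LDeg M v₀ A d := by
  classical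
  intro N _ _ _ _ _ _ j W hW
  have hkW : Ov k W := by
    intro c
    have h1 : algebraMap k F c ∈ W.comap (algebraMap F N) := by rw [hW]; exact hk c
    rw [IsScalarTower.algebraMap_apply k F N]
    exact h1
  have hval : ∀ x : F, W.valuation (algebraMap F N x) < 1 ↔ v₀.valuation x < 1 := by
    intro x
    rw [← hW]
    exact (TG.comap_lt_one W x).symm
  have hresW : ∀ a ∈ A, ∃ c : k, W.valuation (algebraMap F N a - algebraMap k N c) < 1 := by
    intro a ha
    obtain ⟨c, hc⟩ := hres a ha
    refine ⟨c, ?_⟩
    rw [IsScalarTower.algebraMap_apply k F N, ← map_sub, hval]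
    exact hc
  obtain ⟨Q, hQ⟩ := exists_point A W hkW hresW
  let Ω := AlgebraicClosure N
  obtain ⟨Q', hQ'⟩ := exists_extend_ncl A (IsScalarTower.toAlgHom F N Ω) Q
  let x : ncl (up M A) →ₐ[k] k := Q.comp (mapC A j)
  have hx : x.comp (toC M A) = Q'.comp (toC Ω A) := by
    rw [AlgHom.comp_assoc, mapC_comp_toC]
    rw [← hQ', AlgHom.comp_assoc, mapC_comp_toC]
  have hxv : ∀ a : A, v₀.valuation ((a : F) - algebraMap k F (x (toC M A a))) < 1 := by
    intro a
    have h1 : x (toC M A a) = Q (toC N A a) := by
      change Q (mapC A j (toC M A a)) = _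
      have h2 := DFunLike.congr_fun (mapC_comp_toC (Ω := N) A j) a
      rw [← h2]
      rfl
    rw [h1, ← hval, map_sub, ← IsScalarTower.algebraMap_apply]
    exact hQ (toC N A a)
  have h1 := h x hxv
  rw [rho_eq hA Q' x hx, rhoQ] at h1
  -- the cosets
  have hfin : Finite (M →ₐ[F] Ω) := inferInstance
  have h2 : (j.fieldRange.fixingSubgroup.relIndex (stab W A)) ≤
      Nat.card {σ : M →ₐ[F] Ω // cen A Q' σ = x} := by
    rw [Subgroup.relIndex, Subgroup.index]
    let g : stab W A → {σ : M →ₐ[F] Ω // cen A Q' σ = x} := fun τ =>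
      ⟨((IsScalarTower.toAlgHom F N Ω).comp (τ : N ≃ₐ[F] N).toAlgHom).comp j, by
        refine AlgHom.ext fun a => ?_
        have h3 : cen A Q' (((IsScalarTower.toAlgHom F N Ω).comp (τ : N ≃ₐ[F] N).toAlgHom).comp j) a
            = Q (⟨(τ : N ≃ₐ[F] N) (j a), TG.ncl_up_stable _ (map_mem_ncl_up A j a.2)⟩) := by
          rw [← hQ']
          rfl
        rw [h3]
        have h4 := hQ (mapC A j a)
        refine val_uniq hkW (hQ _) ?_
        have h5 : (mapC A j a : N) - algebraMap k N (Q (mapC A j a)) ∈ ncl (up N A) :=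
          (ncl (up N A)).sub_mem (mapC A j a).2 ((ncl (up N A)).algebraMap_mem _)
        have h6 := (TG.mem_stab.1 τ.2 _ h5).2 h4
        rw [map_sub] at h6
        have h7 : (τ : N ≃ₐ[F] N) (algebraMap k N (Q (mapC A j a))) =
            algebraMap k N (Q (mapC A j a)) := by
          rw [IsScalarTower.algebraMap_apply k F N, AlgEquiv.commutes]
        rw [h7] at h6
        exact h6⟩
    have hg : ∀ τ τ' : stab W A, g τ = g τ' →
        (QuotientGroup.mk τ : stab W A ⧸ j.fieldRange.fixingSubgroup.subgroupOf (stab W A)) =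
          QuotientGroup.mk τ' := by
      intro τ τ' hττ
      rw [QuotientGroup.eq, Subgroup.mem_subgroupOf]
      rw [IntermediateField.mem_fixingSubgroup_iff]
      rintro _ ⟨m, rfl⟩
      have h3 := DFunLike.congr_fun (congrArg Subtype.val hττ) m
      have h4 : (τ : N ≃ₐ[F] N) (j m) = (τ' : N ≃ₐ[F] N) (j m) :=
        (algebraMap N Ω).injective h3
      change ((τ : N ≃ₐ[F] N)⁻¹ * (τ' : N ≃ₐ[F] N)) (j m) = j m
      rw [AlgEquiv.mul_apply, ← h4, ← AlgEquiv.mul_apply, inv_mul_cancel]
      rfl
    let G : (stab W A ⧸ j.fieldRange.fixingSubgroup.subgroupOf (stab W A)) →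
        {σ : M →ₐ[F] Ω // cen A Q' σ = x} := fun c => g c.out
    refine Nat.card_le_card_of_injective G ?_
    intro c c' hcc
    have h3 := hg _ _ hcc
    rw [QuotientGroup.out_eq', QuotientGroup.out_eq'] at h3
    exact h3
  refine h2.trans (le_trans ?_ h1)
  exact Nat.le_mul_of_pos_left _ (NeZero.pos _)

end LDeg

/-! ## Separability -/

section Sep

variable {k F L : Type u} [Field k] [IsAlgClosed k] [Field F] [Field L] [Algebra k F]
  [Algebra k L] [Algebra F L] [IsScalarTower k F L] [FiniteDimensional F L]

/-- A local degree smaller than the characteristic forces separability. -/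
theorem isSeparable_of_rho (p : ℕ) [Fact p.Prime] [CharP k p] (A : Subalgebra k F)
    (x : ncl (up L A) →ₐ[k] k) (h : rho A x < p) : Algebra.IsSeparable F L := by
  haveI : CharP F p := charP_of_injective_algebraMap (algebraMap k F).injective p
  haveI : ExpChar F p := ExpChar.prime (Fact.out : p.Prime)
  rw [isSeparable_iff_finInsepDegree_eq_one]
  obtain ⟨m, hm⟩ := finInsepDegree_eq_pow F L p
  have hpos := rho_pos A x
  have h1 : Field.finInsepDegree F L ≤ rho A x := by
    rw [rho, rhoQ] at hpos ⊢
    exact Nat.le_mul_of_pos_right _ (Nat.pos_of_mul_pos_left hpos |> fun h => h)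
  rw [hm] at h1 ⊢
  rcases Nat.eq_zero_or_pos m with h0 | h0
  · rw [h0, pow_zero]
  · exfalso
    have h2 : p ≤ p ^ m := Nat.le_self_pow h0.ne' p
    omega

end Sep

end Pool.Agent.TG55
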