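import Pool.Agent.Lib.TG_h55.LDegRho
import Pool.Agent.Lib.TG.ZDim
import Pool.Agent.Lib.TG_h68.FinClos

/-!
# TANK G, block C, J10: `LDeg` over all zero-dimensional valuation rings of a model
-/

set_option autoImplicit false

namespace Pool.Agent.TG55

open Pool.Agent.TG (ncl up upm stab LDeg Ov ZDim IsMin ch RV)
open Pool.Agent.TG82
open Pool.Agent.LU2 (locV)

universe u

section Fin

variable {k F M : Type u} [Field k] [Field F] [Field M] [Algebra k F]
  [Algebra k M] [Algebra F M] [IsScalarTower k F M]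

theorem up_fg {A : Subalgebra k F} (hA : A.FG) : (up (k := k) M A).FG := Subalgebra.FG.map _ hA

/-- The integral closure is finitely generated. -/
theorem ncl_up_fg [PerfectField k] [Algebra.IsAlgebraic F M]
    (hM : (⊤ : IntermediateField k M).FG) (A : Subalgebra k F) (hA : A.FG)
    (halg : ∀ f : F, IsAlgebraic A f) : (ncl (up M A)).FG := by
  have hfg := up_fg (M := M) hA
  have halgM : ∀ f : M, IsAlgebraic (up (k := k) M A) f := by
    have h1 : Algebra.IsAlgebraic A F := ⟨halg⟩
    have h2 : Algebra.IsAlgebraic A M := Algebra.IsAlgebraic.trans A F M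
    intro f
    obtain ⟨p, hp0, hp⟩ := h2.isAlgebraic f
    let φ : A →+* up (k := k) M A := ((algebraMap F M).comp A.val.toRingHom).codRestrict
      (up M A).toSubring (fun b => ⟨b, b.2, rfl⟩)
    have hφ : Function.Injective φ := fun a b hab => Subtype.ext
      ((algebraMap F M).injective (congrArg Subtype.val hab))
    refine ⟨p.map φ, (Polynomial.map_ne_zero_iff hφ).2 hp0, ?_⟩
    rw [Polynomial.aeval_def, Polynomial.eval₂_map]
    exact hp
  have h3 := Pool.Agent.TGh68.finite_integralClosure hM (up M A) hfg halgM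
  have h4 : Algebra.FiniteType k (up (k := k) M A) := (Subalgebra.fg_iff_finiteType _).1 hfg
  have h5 : Algebra.FiniteType k (integralClosure (up (k := k) M A) M) :=
    Algebra.FiniteType.trans (S := up (k := k) M A) h4 inferInstance
  have h6 : ncl (up (k := k) M A) =
      (integralClosure (up (k := k) M A) M).restrictScalars k := by
    ext a
    rfl
  rw [h6, Subalgebra.fg_iff_finiteType]
  exact h5

end Fin

section Model

variable {k F : Type u} [Field k] [IsAlgClosed k] [Field F] [Algebra k F]

/-- **Local degrees over a model.**  `S` is a finite set of nonzero generators of `P`, all charts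
`ch P c`, `c ∈ S`, are integrally closed in `F`.  If for every zero-dimensional valuation ring `V`
of `M`, every `c ∈ S` minimal for `V`, the local degree of the centre of `V` on the integral closure
of `ch P c` in `M` is at most `d`, then `LDeg M v₀ (RV v₀ P) d` for all `v₀`. -/
theorem lDeg_of_zdim (P : Submodule k F) (S : Finset F) (hS : P = Submodule.span k (S : Set F))
    (hne : ∀ c ∈ S, c ≠ 0) (hSn : S.Nonempty)
    (hint : ∀ c ∈ S, ∀ b : F, IsIntegral (ch P c) b → b ∈ ch P c)
    (halg : ∀ c ∈ S, ∀ b : F, IsAlgebraic (ch P c) b)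
    (M : Type u) [Field M] [Algebra k M] [Algebra F M] [IsScalarTower k F M]
    [FiniteDimensional F M] (hM : (⊤ : IntermediateField k M).FG) {d : ℕ}
    (h : ∀ c ∈ S, ∀ V : ValuationSubring M, ZDim k V → IsMin V (upm M P) (algebraMap F M c) →
      ∀ x : ncl (up M (ch P c)) →ₐ[k] k,
        (∀ a : ncl (up M (ch P c)), V.valuation ((a : M) - algebraMap k M (x a)) < 1) →
        rho (ch P c) x ≤ d)
    (v₀ : ValuationSubring F) (hv : ZDim k v₀) : LDeg M v₀ (RV v₀ P) d := by
  classical
  obtain ⟨c, hc, hmin⟩ := TG.exists_isMin_mem hv.ov S (by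
    obtain ⟨c, hc⟩ := hSn
    exact ⟨c, hc, hne c hc⟩)
  rw [← hS] at hmin
  have hchv : ∀ a ∈ ch P c, a ∈ v₀ := TG.ch_le hv.ov hmin
  refine LDeg.anti (R := ch P c) ?_ ?_
  · rw [TG.RV_eq hmin]
    exact Pool.Agent.LU2.le_locV _
  refine lDeg_of_rho (hint c hc) v₀ hv.ov (fun a ha => hv.res a (hchv a ha)) M fun x hx => ?_
  have hPfg : P.FG := by rw [hS]; exact ⟨S, rfl⟩
  have hfg : (ncl (up M (ch P c))).FG := ncl_up_fg hM _ (TG.ch_fg hPfg) (halg c hc)
  have hmax : (RingHom.ker x).IsMaximal :=
    RingHom.ker_isMaximal_of_surjective (x : ncl (up M (ch P c)) →+* k) (fun t =>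
      ⟨algebraMap k _ t, x.commutes t⟩)
  obtain ⟨V, hV, hCV, hm⟩ := TG.exists_zdim_maximal (ncl (up M (ch P c))) hfg _ hmax
  have hxV : ∀ a : ncl (up M (ch P c)), V.valuation ((a : M) - algebraMap k M (x a)) < 1 := by
    intro a
    have h1 := (hm (a - algebraMap k _ (x a))).1 (by
      rw [RingHom.mem_ker]
      change x _ = 0
      rw [map_sub, x.commutes]
      exact sub_self _)
    exact h1
  refine h c hc V hV ?_ x hxV
  refine (TG.isMin_upm V).2 ⟨hmin.mem, hmin.ne, fun g hg => ?_⟩
  change algebraMap F M (g / c) ∈ V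
  exact hCV _ (TG.le_ncl _ ⟨g / c, TG.div_mem_ch hg, rfl⟩)

end Model

end Pool.Agent.TG55
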